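import Mathlib

/-! The equation x_1 + ... + x_m = x_(m+1) + ... + x_(2m) is r-common for every r. -/

open Finset
open scoped Classical

namespace Pool.Agent.Results.MP_3b56a7_co.Energy

/-- Coefficients of x_1 + ... + x_m - x_(m+1) - ... - x_(2m) = 0. -/
def coef (m : ℕ) : Fin (m + m) → ℤ := Fin.addCases (fun _ => 1) (fun _ => -1)

noncomputable def F {n : ℕ} (N : ℕ) [NeZero N] (A : Finset (Fin n)) (ξ : ZMod N) : ℂ :=
  ∑ v ∈ A, ZMod.stdAddChar (ξ * ((((v : ℕ) : ℤ) + 1 : ℤ) : ZMod N))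

lemma bound {m n : ℕ} (x : Fin (m + m) → Fin n) :
    |∑ i, coef m i * (((x i : ℕ) : ℤ) + 1)| < ((m + m) * n + 1 : ℕ) := by
  refine (abs_sum_le_sum_abs _ _).trans_lt ?_
  have : ∀ i, |coef m i * (((x i : ℕ) : ℤ) + 1)| ≤ n := by
    intro i
    have h1 : |coef m i| = 1 := by
      refine Fin.addCases (fun j => ?_) (fun j => ?_) i
      · rw [coef, Fin.addCases_left]; rfl
      · rw [coef, Fin.addCases_right]; rfl
    have := (x i).2
    rw [abs_mul, h1, one_mul, abs_of_nonneg (by positivity)]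
    omega
  have h := sum_le_sum (s := univ) fun i _ => this i
  simp only [sum_const, card_univ, Fintype.card_fin, nsmul_eq_mul] at h
  push_cast at h ⊢
  linarith

lemma count {m n : ℕ} (A : Finset (Fin n)) :
    ∑ ξ : ZMod ((m + m) * n + 1), ‖F ((m + m) * n + 1) A ξ‖ ^ (2 * m) =
      ((m + m) * n + 1 : ℕ) * ((univ.filter (fun x : Fin (m + m) → Fin n =>
        ∑ i, coef m i * (((x i : ℕ) : ℤ) + 1) = 0 ∧ ∀ i, x i ∈ A)).card : ℝ) := by
  set N := (m + m) * n + 1 with hN
  have h1 : ∀ ξ : ZMod N, ((‖F N A ξ‖ ^ (2 * m) : ℝ) : ℂ) = ∏ i : Fin (m + m), ∑ v ∈ A,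
      ZMod.stdAddChar (ξ * ((coef m i * (((v : ℕ) : ℤ) + 1) : ℤ) : ZMod N)) := by
    intro ξ
    rw [Fin.prod_univ_add]
    have e : ∑ v ∈ A, ZMod.stdAddChar (ξ * ((-1 * (((v : ℕ) : ℤ) + 1) : ℤ) : ZMod N)) =
        (starRingEnd ℂ) (F N A ξ) := by
      rw [F, map_sum]
      refine sum_congr rfl fun v _ => ?_
      rw [← AddChar.map_neg_eq_conj]
      congr 1; push_cast; ring
    simp only [coef, Fin.addCases_left, Fin.addCases_right, e, one_mul, prod_const, card_univ,
      Fintype.card_fin]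
    rw [← F, ← mul_pow, Complex.mul_conj, Complex.normSq_eq_norm_sq]
    push_cast; ring
  apply Complex.ofReal_injective
  rw [Complex.ofReal_sum, sum_congr rfl (fun ξ _ => h1 ξ)]
  simp only [prod_univ_sum]
  rw [sum_comm]
  have h2 : ∀ x : Fin (m + m) → Fin n, ∑ ξ : ZMod N, ∏ i, ZMod.stdAddChar
      (ξ * ((coef m i * (((x i : ℕ) : ℤ) + 1) : ℤ) : ZMod N)) =
      if ∑ i, coef m i * (((x i : ℕ) : ℤ) + 1) = 0 then (N : ℂ) else 0 := by
    intro x
    have : ∀ ξ : ZMod N, ∏ i, ZMod.stdAddChar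
        (ξ * ((coef m i * (((x i : ℕ) : ℤ) + 1) : ℤ) : ZMod N)) =
        ZMod.stdAddChar (ξ * ((∑ i, coef m i * (((x i : ℕ) : ℤ) + 1) : ℤ) : ZMod N)) := by
      intro ξ
      rw [Int.cast_sum, mul_sum]
      induction (univ : Finset (Fin (m + m))) using Finset.induction_on with
      | empty => simp
      | insert a s ha ih => rw [prod_insert ha, sum_insert ha, AddChar.map_add_eq_mul, ih]
    simp only [this]
    rw [AddChar.sum_mulShift _ (ZMod.isPrimitive_stdAddChar N), ZMod.card]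
    have hb := bound x
    have : ((∑ i, coef m i * (((x i : ℕ) : ℤ) + 1) : ℤ) : ZMod N) = 0 ↔
        ∑ i, coef m i * (((x i : ℕ) : ℤ) + 1) = 0 := by
      rw [ZMod.intCast_zmod_eq_zero_iff_dvd]
      exact ⟨fun h => Int.eq_zero_of_abs_lt_dvd h hb, fun h => by rw [h]; exact dvd_zero _⟩
    simp only [this]
    split_ifs <;> simp
  simp only [h2]
  rw [← sum_filter, sum_const, nsmul_eq_mul, mul_comm]
  rw [Complex.ofReal_mul, Complex.ofReal_natCast, Complex.ofReal_natCast]
  congr 3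
  ext x
  simp [and_comm]

/-- For all m, r ≥ 1, every n and every r-colouring c of [n], at least the fraction r^(1-2m) of the
solutions of x_1 + ... + x_m = x_(m+1) + ... + x_(2m) in [n] are monochromatic. -/
theorem result (m r n : ℕ) (hm : 1 ≤ m) (hr : 1 ≤ r) (c : Fin n → Fin r) :
    ((r : ℝ) ^ (m + m - 1))⁻¹ *
        ((univ.filter (fun x : Fin (m + m) → Fin n =>
          ∑ i, coef m i * (((x i : ℕ) : ℤ) + 1) = 0)).card : ℝ) ≤
      ((univ.filter (fun x : Fin (m + m) → Fin n =>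
          ∑ i, coef m i * (((x i : ℕ) : ℤ) + 1) = 0 ∧
            ∀ i j : Fin (m + m), c (x i) = c (x j))).card : ℝ) := by
  have hr' : (0 : ℝ) < r := by exact_mod_cast hr
  let i0 : Fin (m + m) := ⟨0, by omega⟩
  have h1 : ((univ.filter (fun x : Fin (m + m) → Fin n =>
      ∑ i, coef m i * (((x i : ℕ) : ℤ) + 1) = 0 ∧ ∀ i j : Fin (m + m), c (x i) = c (x j))).card : ℝ) =
      ∑ b : Fin r, ((univ.filter (fun x : Fin (m + m) → Fin n =>
        ∑ i, coef m i * (((x i : ℕ) : ℤ) + 1) = 0 ∧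
          ∀ i, x i ∈ univ.filter (fun v => c v = b))).card : ℝ) := by
    rw [card_eq_sum_card_fiberwise (f := fun x => c (x i0)) (t := univ) (fun _ _ => mem_univ _)]
    push_cast
    refine sum_congr rfl fun b _ => ?_
    congr 2
    ext x
    simp only [mem_filter, mem_univ, true_and, and_assoc]
    refine and_congr Iff.rfl ⟨fun h i => (h.1 i i0).trans h.2, fun h => ⟨fun i j => ?_, h i0⟩⟩
    rw [h i, h j]
  have hN : (0 : ℝ) < ((m + m) * n + 1 : ℕ) := by positivity
  rw [h1, inv_mul_le_iff₀ (by positivity)]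
  refine le_of_mul_le_mul_left ?_ hN
  have h2 := count (m := m) (univ : Finset (Fin n))
  simp only [mem_univ, implies_true, and_true] at h2
  rw [← h2, mul_left_comm, mul_sum]
  simp only [← count]
  rw [sum_comm, mul_sum]
  refine sum_le_sum fun ξ _ => ?_
  have h3 : F _ (univ : Finset (Fin n)) ξ = ∑ b : Fin r, F _ (univ.filter (fun v => c v = b)) ξ := by
    unfold F; rw [sum_fiberwise]
  have h4 := pow_sum_le_card_mul_sum_pow (s := (univ : Finset (Fin r)))
    (f := fun b => ‖F _ (univ.filter (fun v => c v = b)) ξ‖) (fun _ _ => norm_nonneg _) (m + m - 1)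
  rw [show m + m - 1 + 1 = 2 * m by omega, card_univ, Fintype.card_fin] at h4
  refine le_trans ?_ h4
  rw [h3]
  gcongr
  exact norm_sum_le _ _

end Pool.Agent.Results.MP_3b56a7_co.Energy
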